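import Pool.Agent.BIL.Main

/-!
# For a residual set of polygons there is no rate of mixing

Let `ρ` be any function with limit `0` at infinity. For all `p` in a residual set of `(k + 3)`-tuples of
points of the plane the following holds. If `P` is a polygon with the vertices `p 0, p 1, ..., p (k + 2)`
(a compact set with nonempty interior whose boundary is the union of the segments `[p i, p (i + 1)]`,
indices modulo `k + 3`) and `φ` is its billiard flow, then there is a smooth function `g` of the
direction alone whose correlations `∫ g(θ_t) g(θ_0) dμ - (∫ g(θ_0) dμ)²` exceed `ρ t` in absolute value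
for arbitrarily large `t`.
-/

open Filter Topology
open scoped ContDiff

namespace Pool.Agent.Results.MP_613dd8_an.GenericNoRate

open BIL

theorem result (k : ℕ) (ρ : ℝ → ℝ) (hρ : Tendsto ρ atTop (𝓝 0)) :
    ∀ᶠ p in residual (Fin (k + 3) → ℂ), ∀ P : Set ℂ, IsPolygon P p (fun i => p (i + 1)) →
      ∀ φ, IsBilliardFlow P p (fun i => p (i + 1)) φ →
      ∃ g : Ang → ℝ, ContDiff ℝ ∞ (fun x : ℝ => g (x : Ang)) ∧
        ∀ T : ℝ, ∃ t : ℝ, T ≤ t ∧ ρ t < |corr P φ g t| :=
  part_B k ρ hρ

end Pool.Agent.Results.MP_613dd8_an.GenericNoRate
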