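import Pool.Agent.BIL.Main3

/-!
# Polygonal billiards mix at most polynomially fast

`P` is an arbitrary polygon (a compact set with nonempty interior whose boundary is the union of the
segments `[a i, b i]`), `ang (b i - a i)` is the direction of the side `i`, and `ξ j` (`j < r`) are
angles such that for some angle `c` a positive multiple of `ang (b i - a i) - c` is in the group
generated by the `ξ j`, for every `i`. (With `c` the direction of the first of `n` sides one can always
take `r = n - 1`; `r = 1` if the angles of `P` are rational multiples of `π` plus multiples of one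
angle.) Then for every time `t ≥ 1` there is a `1`-Lipschitz function `g` of the direction alone whose
correlation `∫ g(θ_s) g(θ_0) dμ - (∫ g(θ_0) dμ)²` is at least `C / t ^ (2 r)` at all times `0 < s ≤ t`.
-/

namespace Pool.Agent.Results.MP_613dd8_an.PolynomialSpeedLimit

open BIL

theorem result {n r : ℕ} {P : Set ℂ} {a b : Fin n → ℂ} (hP : IsPolygon P a b) (c : Ang)
    (ξ : Fin r → Ang)
    (hξ : ∀ i, ∃ d : ℕ, 0 < d ∧
      d • (ang (b i - a i) - c) ∈ AddSubgroup.closure (Set.range ξ)) :
    ∃ C > 0, ∀ φ, IsBilliardFlow P a b φ → ∀ t : ℝ, 1 ≤ t → ∃ g : Ang → ℝ, LipschitzWith 1 g ∧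
      ∀ s : ℝ, 0 < s → s ≤ t → C / t ^ (2 * r) ≤ corr P φ g s :=
  part_A2 hP c ξ hξ

end Pool.Agent.Results.MP_613dd8_an.PolynomialSpeedLimit
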