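import Pool.Agent.BIL.Main2

/-!
# Right triangles and parallelograms: correlations of Lipschitz functions are not o(1/t)

`P` is a polygon in which every side is parallel or perpendicular to the direction `c`, or parallel to the
direction `β`: for example every right triangle and every parallelogram. There is `C > 0` such that for every
`T₀` there are a time `T ≥ T₀` and a `1`-Lipschitz function `g` of the direction alone whose correlation
`∫ g(θ_s) g(θ_0) dμ - (∫ g(θ_0) dμ)²` is at least `C / T` at all times `0 < s ≤ T`.

(`4 • (ang w - c) = 0` says that the vector `w` is parallel or perpendicular to the direction `c`, and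
`2 • (ang w - β) = 0` that it is parallel to the direction `β`; angles are modulo `2 π`.)
-/

namespace Pool.Agent.Results.MP_613dd8_an.SkewDirectionSpeedLimit

open BIL

theorem result {n : ℕ} {P : Set ℂ} {a b : Fin n → ℂ} (hP : IsPolygon P a b) (c β : Ang)
    (hs : ∀ i, (4 : ℕ) • (ang (b i - a i) - c) = 0 ∨ (2 : ℕ) • (ang (b i - a i) - β) = 0) :
    ∃ C > 0, ∀ φ, IsBilliardFlow P a b φ → ∀ T₀ : ℝ, ∃ T : ℝ, T₀ ≤ T ∧ 0 < T ∧
      ∃ g : Ang → ℝ, LipschitzWith 1 g ∧ ∀ s : ℝ, 0 < s → s ≤ T → C / T ≤ corr P φ g s :=
  part_C hP c β hs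

end Pool.Agent.Results.MP_613dd8_an.SkewDirectionSpeedLimit
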