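import Pool.Agent.TMN.Main

/-!
# Topologically mixing polygonal billiards

Let `|θ - π/4| < 1/100`, `e^{iθ}` transcendental (such `θ` exist). The table `Tb θ p` is the rectangle
`[0,1] × [0, tan θ]` minus the interior of the rectangle `Q p` of tilt `ψ = p.1` and support numbers
`p.2 j`. For residually many `p` in the nonempty open sets `Pi0` (`Q p` is near `1/4 + i/2`: the table
has a hole) and `Pi1` (`Q p` is cut by the bottom wall: the table is simply connected, its boundary is the
simple closed polygonal curve with the nine vertices `vx θ p`, and its angle at `vx θ p 5` is `ψ`):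
`ψ / π` is irrational, the table is a polygon and has a billiard flow, and every billiard flow `φ` of the
table is topologically mixing, with a polynomial lower bound (`TopMixQ`): for all open `U, V ⊆ ℂ × Ang`
that meet the phase space there are `T, c > 0` with `μ (U ∩ φ_t⁻¹ V) ≥ c / t³` for ALL `t ≥ T`.
-/

open Set Filter Topology

namespace Pool.Agent.Results.MP_613dd8_an.TopologicalMixing

open TMX TMN

theorem result :
    (∃ θ : ℝ, |θ - Real.pi / 4| < 1 / 100 ∧ Transcendental ℚ (Complex.exp (θ * Complex.I))) ∧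
    ∀ θ : ℝ, |θ - Real.pi / 4| < 1 / 100 → Transcendental ℚ (Complex.exp (θ * Complex.I)) →
      (IsOpen Pi0 ∧ Pi0.Nonempty ∧ ∃ G ∈ residual Par, ∀ p ∈ G, p ∈ Pi0 →
        Irrational (p.1 / Real.pi) ∧
        BIL.IsPolygon (Tb θ p) (sa θ p) (sb θ p) ∧
        (∃ φ, BIL.IsBilliardFlow (Tb θ p) (sa θ p) (sb θ p) φ) ∧
        TopMixQ (Tb θ p) (sa θ p) (sb θ p)) ∧
      (IsOpen Pi1 ∧ Pi1.Nonempty ∧ ∃ G ∈ residual Par, ∀ p ∈ G, p ∈ Pi1 →
        Irrational (p.1 / Real.pi) ∧
        BIL.IsPolygon (Tb θ p) (vx θ p) (fun i => vx θ p (i + 1)) ∧ Simple (vx θ p) ∧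
        EuclideanGeometry.angle (vx θ p 4) (vx θ p 5) (vx θ p 6) = p.1 ∧
        (∃ φ, BIL.IsBilliardFlow (Tb θ p) (vx θ p) (fun i => vx θ p (i + 1)) φ) ∧
        TopMixQ (Tb θ p) (vx θ p) (fun i => vx θ p (i + 1))) :=
  ⟨exists_theta, fun _ hθ hz => ⟨main_hole hθ hz, main_nonagon hθ hz⟩⟩

end Pool.Agent.Results.MP_613dd8_an.TopologicalMixing
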